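import Mathlib
import Pool.Agent.Y449.DRefl.Main

/-!
# The d-reflection preserves arbitrary products of T0 spaces

The definitions (`IsDSpace`, `IsDReflection`) are in `Pool/Agent/Y449/DRefl/Defs.lean`.
-/

set_option autoImplicit false

open Topology Set Pool.Agent.Y449.DRefl

namespace Pool.Agent.Results.MP_c8df5e_gt.ArbitraryProducts

universe u

/-- **Arbitrary products of d-reflections are d-reflections.** Let `μ i : X i → R i` be a
d-reflection of the `T0` space `X i`, for `i` in an arbitrary index set. Then the product map is a
d-reflection of the product of the `X i`; so every d-reflection of the product is homeomorphic to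
the product of the `R i`, compatibly with the reflection maps. -/
theorem result (I : Type u) (X R : I → Type u) [∀ i, TopologicalSpace (X i)]
    [∀ i, T0Space (X i)] [∀ i, TopologicalSpace (R i)] (μ : ∀ i, X i → R i)
    (hμ : ∀ i, IsDReflection (μ i)) :
    IsDReflection (fun (x : ∀ i, X i) (i : I) => μ i (x i)) ∧
    ∀ (P : Type u) [TopologicalSpace P] (ν : (∀ i, X i) → P), IsDReflection ν →
      ∃ e : P ≃ₜ (∀ i, R i), ∀ x i, e (ν x) i = μ i (x i) := by
  have h : IsDReflection (fun (x : ∀ i, X i) (i : I) => μ i (x i)) :=
    reflection_of_dense (dspace_pi fun i => (hμ i).1) (inducing_pi fun i => (hμ i).inducing)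
      (ddense_pi (fun i => (hμ i).1) fun i => (hμ i).ddense)
  refine ⟨h, fun P _ ν hν => ?_⟩
  obtain ⟨e, he⟩ := reflection_unique hν h
  exact ⟨e, fun x i => congrFun (he x) i⟩

end Pool.Agent.Results.MP_c8df5e_gt.ArbitraryProducts
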